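import Pool.Agent.W391.BGR.Stm

/-! Words with the same value in the Baumslag-Gersten group are connected by rules. -/

set_option autoImplicit false

namespace Pool.Agent.W824.BGRPRES

open Pool.Agent.W391.BGR

/-- one step in either direction -/
def Sy (a b : Wd) : Prop := St RR a b ∨ St RR b a

theorem st_ctx {u v : Wd} (x y : Wd) (h : St RR u v) : St RR (x ++ u ++ y) (x ++ v ++ y) := by
  obtain ⟨a, b, p, hp, rfl, rfl⟩ := h
  exact ⟨x ++ a, b ++ y, p, hp, by simp [List.append_assoc], by simp [List.append_assoc]⟩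

theorem sy_ctx {u v : Wd} (x y : Wd) (h : Sy u v) : Sy (x ++ u ++ y) (x ++ v ++ y) :=
  h.elim (fun h => Or.inl (st_ctx x y h)) (fun h => Or.inr (st_ctx x y h))

theorem rt_ctx {u v : Wd} (x y : Wd) (h : Relation.ReflTransGen Sy u v) :
    Relation.ReflTransGen Sy (x ++ u ++ y) (x ++ v ++ y) := by
  induction h with
  | refl => exact Relation.ReflTransGen.refl
  | tail _ h2 ih => exact ih.tail (sy_ctx x y h2)

theorem rt_symm {u v : Wd} (h : Relation.ReflTransGen Sy u v) : Relation.ReflTransGen Sy v u := by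
  induction h with
  | refl => exact Relation.ReflTransGen.refl
  | tail _ h2 ih => exact Relation.ReflTransGen.head (Or.symm h2) ih

/-- the congruence generated by the rules -/
def cg : Con (FreeMonoid (Fin 8)) where
  r u v := Relation.ReflTransGen Sy (FreeMonoid.toList u) (FreeMonoid.toList v)
  iseqv := ⟨fun _ => Relation.ReflTransGen.refl, fun h => rt_symm h, fun h1 h2 => h1.trans h2⟩
  mul' := by
    intro a b c d h1 h2
    have e1 := rt_ctx [] (FreeMonoid.toList c) h1
    have e2 := rt_ctx (FreeMonoid.toList b) [] h2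
    simp only [List.nil_append, List.append_nil] at e1 e2
    rw [FreeMonoid.toList_mul, FreeMonoid.toList_mul]
    exact e1.trans e2

/-- the class of a word -/
def cls (u : Wd) : cg.Quotient := ((FreeMonoid.ofList u : FreeMonoid (Fin 8)) : cg.Quotient)

theorem cls_eq {u v : Wd} : cls u = cls v ↔ Relation.ReflTransGen Sy u v := by
  unfold cls
  rw [Con.eq]
  rfl

theorem cls_append (u v : Wd) : cls (u ++ v) = cls u * cls v := by
  unfold cls
  rw [FreeMonoid.ofList_append, Con.coe_mul]

theorem cls_nil : cls [] = 1 := rfl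

theorem cls_rule {p : Wd × Wd} (hp : p ∈ RR) : cls p.1 = cls p.2 := by
  rw [cls_eq]
  exact Relation.ReflTransGen.single (Or.inl ⟨[], [], p, hp, by simp, by simp⟩)

theorem r01 : cls [0] * cls [1] = 1 := by
  rw [← cls_append, ← cls_nil]
  exact cls_rule (p := ([0, 1], [])) (by decide)

theorem r10 : cls [1] * cls [0] = 1 := by
  rw [← cls_append, ← cls_nil]
  exact cls_rule (p := ([1, 0], [])) (by decide)

theorem r67 : cls [6] * cls [7] = 1 := by
  rw [← cls_append, ← cls_nil]
  exact cls_rule (p := ([6, 7], [])) (by decide)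

theorem r76 : cls [7] * cls [6] = 1 := by
  rw [← cls_append, ← cls_nil]
  exact cls_rule (p := ([7, 6], [])) (by decide)

theorem r32 : cls [3] * cls [2] = 1 := by
  rw [← cls_append, ← cls_nil]
  exact cls_rule (p := ([3, 2], [])) (by decide)

theorem r60 : cls [6] * cls [0] = cls [4] * cls [6] := by
  rw [← cls_append, ← cls_append]
  exact cls_rule (p := ([6, 0], [4, 6])) (by decide)

theorem r61 : cls [6] * cls [1] = cls [5] * cls [6] := by
  rw [← cls_append, ← cls_append]
  exact cls_rule (p := ([6, 1], [5, 6])) (by decide)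

theorem r70 : cls [7] * cls [0] = cls [2] * cls [7] := by
  rw [← cls_append, ← cls_append]
  exact cls_rule (p := ([7, 0], [2, 7])) (by decide)

theorem r71 : cls [7] * cls [1] = cls [3] * cls [7] := by
  rw [← cls_append, ← cls_append]
  exact cls_rule (p := ([7, 1], [3, 7])) (by decide)

theorem r30 : cls [3] * cls [0] = cls [0] * cls [0] * cls [3] := by
  rw [← cls_append, ← cls_append, ← cls_append]
  exact cls_rule (p := ([3, 0], [0, 0, 3])) (by decide)

/-- the unit of the letter a -/
def ua : cg.Quotientˣ := ⟨cls [0], cls [1], r01, r10⟩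

/-- the unit of the letter t -/
def ut : cg.Quotientˣ := ⟨cls [6], cls [7], r67, r76⟩

/-- the images of the generators -/
def ff : Fin 2 → cg.Quotientˣ := ![ua, ut]

theorem u2 : ((ut⁻¹ * ua * ut : cg.Quotientˣ) : cg.Quotient) = cls [2] := by
  change cls [7] * cls [0] * cls [6] = cls [2]
  rw [r70, mul_assoc, r76, mul_one]

theorem u3 : ((ut⁻¹ * ua⁻¹ * ut : cg.Quotientˣ) : cg.Quotient) = cls [3] := by
  change cls [7] * cls [1] * cls [6] = cls [3]
  rw [r71, mul_assoc, r76, mul_one]

theorem u4 : ((ut * ua * ut⁻¹ : cg.Quotientˣ) : cg.Quotient) = cls [4] := by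
  change cls [6] * cls [0] * cls [7] = cls [4]
  rw [r60, mul_assoc, r67, mul_one]

theorem u5 : ((ut * ua⁻¹ * ut⁻¹ : cg.Quotientˣ) : cg.Quotient) = cls [5] := by
  change cls [6] * cls [1] * cls [7] = cls [5]
  rw [r61, mul_assoc, r67, mul_one]

theorem rel_one : FreeGroup.lift ff rel = 1 := by
  unfold rel
  simp only [map_mul, map_inv, map_pow, FreeGroup.lift_apply_of]
  change (ut⁻¹ * ua⁻¹ * ut) * ua * (ut⁻¹ * ua * ut) * (ua ^ 2)⁻¹ = 1
  rw [mul_inv_eq_one]
  ext
  rw [Units.val_mul, Units.val_mul, u3, u2, Units.val_pow_eq_pow_val]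
  change cls [3] * cls [0] * cls [2] = cls [0] ^ 2
  rw [r30, mul_assoc, r32, mul_one, pow_two]

/-- the homomorphism to the units of the quotient monoid -/
def psi : BG →* cg.Quotientˣ :=
  PresentedGroup.toGroup (f := ff) (rels := {rel}) (by
    intro r hr
    rw [Set.mem_singleton_iff] at hr
    rw [hr]
    exact rel_one)

theorem psi_ga : psi ga = ua := by
  unfold psi ga
  rw [PresentedGroup.toGroup.of]
  rfl

theorem psi_gt : psi gt = ut := by
  unfold psi gt
  rw [PresentedGroup.toGroup.of]
  rfl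

theorem psi_phi (i : Fin 8) : ((psi (phi i) : cg.Quotientˣ) : cg.Quotient) = cls [i] := by
  fin_cases i
  · change ((psi ga : cg.Quotientˣ) : cg.Quotient) = cls [0]
    rw [psi_ga]; rfl
  · change ((psi ga⁻¹ : cg.Quotientˣ) : cg.Quotient) = cls [1]
    rw [map_inv, psi_ga]; rfl
  · change ((psi (gt⁻¹ * ga * gt) : cg.Quotientˣ) : cg.Quotient) = cls [2]
    rw [map_mul, map_mul, map_inv, psi_ga, psi_gt, u2]
  · change ((psi (gt⁻¹ * ga⁻¹ * gt) : cg.Quotientˣ) : cg.Quotient) = cls [3]
    rw [map_mul, map_mul, map_inv, map_inv, psi_ga, psi_gt, u3]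
  · change ((psi (gt * ga * gt⁻¹) : cg.Quotientˣ) : cg.Quotient) = cls [4]
    rw [map_mul, map_mul, map_inv, psi_ga, psi_gt, u4]
  · change ((psi (gt * ga⁻¹ * gt⁻¹) : cg.Quotientˣ) : cg.Quotient) = cls [5]
    rw [map_mul, map_mul, map_inv, map_inv, psi_ga, psi_gt, u5]
  · change ((psi gt : cg.Quotientˣ) : cg.Quotient) = cls [6]
    rw [psi_gt]; rfl
  · change ((psi gt⁻¹ : cg.Quotientˣ) : cg.Quotient) = cls [7]
    rw [map_inv, psi_gt]; rfl

theorem psi_prod (u : Wd) : ((psi (u.map phi).prod : cg.Quotientˣ) : cg.Quotient) = cls u := by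
  induction u with
  | nil => simp [cls_nil]
  | cons i u ih =>
    rw [List.map_cons, List.prod_cons, map_mul, Units.val_mul, psi_phi, ih, ← cls_append]
    rfl

theorem main : PRES := by
  intro u v h
  have h1 : cls u = cls v := by rw [← psi_prod u, ← psi_prod v, h]
  exact cls_eq.1 h1

end Pool.Agent.W824.BGRPRES
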